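import Pool.Agent.Helper98_CC.Stmts
import Pool.Agent.Helper44_WRA.Kill
import Pool.Agent.Helper62_WRA.Dz1

/-!
CC, module IND: linear independence of the labels (Dedekind).
-/

open scoped BigOperators

noncomputable section

namespace Pool.Agent.Helper65_CC

open Pool.Agent.Helper51_AWC Pool.Agent.Helper79_WRA Pool.Agent.Helper98_CC
open Pool.Agent.Helper79_WRA.H44

/-- a product of two values of a label is a combination of its values, with coefficients that do
not depend on the label -/
theorem lab_mul (M : Ideal (integralClosure ℤ ℂ)) {G : Type} [Group G] [Finite G]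
    [Fintype (ConjClasses G)] (g h : G) :
    ∃ n : ConjClasses G → FF M, ∀ β ∈ Labs M G,
      β g * β h = ∑ C, n C * β (Quotient.out C) := by
  classical
  have := Fintype.ofFinite G
  obtain ⟨a, ha⟩ : ∃ a : G → ℂ, a = fun x => if IsConj g x then (1 : ℂ) else 0 := ⟨_, rfl⟩
  obtain ⟨b, hb⟩ : ∃ b : G → ℂ, b = fun x => if IsConj h x then (1 : ℂ) else 0 := ⟨_, rfl⟩
  have ha1 : ∀ x y, a (y * x * y⁻¹) = a x := by
    intro x y
    have h0 : IsConj x (y * x * y⁻¹) := isConj_iff.2 ⟨y, rfl⟩
    simp only [ha]
    by_cases h1 : IsConj g x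
    · rw [if_pos h1, if_pos (h1.trans h0)]
    · rw [if_neg h1, if_neg (fun h2 => h1 (h2.trans h0.symm))]
  have hb1 : ∀ x y, b (y * x * y⁻¹) = b x := by
    intro x y
    have h0 : IsConj x (y * x * y⁻¹) := isConj_iff.2 ⟨y, rfl⟩
    simp only [hb]
    by_cases h1 : IsConj h x
    · rw [if_pos h1, if_pos (h1.trans h0)]
    · rw [if_neg h1, if_neg (fun h2 => h1 (h2.trans h0.symm))]
  have ha2 : ∀ x, IsIntegral ℤ (a x) := by
    intro x
    simp only [ha]
    split_ifs
    · exact isIntegral_one
    · exact isIntegral_zero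
  have hb2 : ∀ x, IsIntegral ℤ (b x) := by
    intro x
    simp only [hb]
    split_ifs
    · exact isIntegral_one
    · exact isIntegral_zero
  refine ⟨fun C => red M (conv a b (Quotient.out C)), ?_⟩
  rintro β ⟨χ, hχ, rfl⟩
  have e1 : omega (MonoidHom.id G) χ g = val a χ := by
    rw [omega_eq, val_eq]
    congr 1
    refine Finset.sum_congr rfl fun x _ => ?_
    simp only [ha, MonoidHom.id_apply, ite_mul, one_mul, zero_mul]
  have e2 : omega (MonoidHom.id G) χ h = val b χ := by
    rw [omega_eq, val_eq]
    congr 1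
    refine Finset.sum_congr rfl fun x _ => ?_
    simp only [hb, MonoidHom.id_apply, ite_mul, one_mul, zero_mul]
  have h1 : labF M χ g * labF M χ h = red M (val (conv a b) χ) := by
    rw [val_conv hχ ha1, ← e1, ← e2, red_mul (omega_integral _ hχ _) (omega_integral _ hχ _)]
    rfl
  rw [h1, val_eq]
  exact H62.red_val_classes M (fun x y => conv_class ha1 hb1 x y)
    (fun x => conv_integral ha2 hb2 x) (fun x => omega_integral _ hχ x)

theorem lab_one (M : Ideal (integralClosure ℤ ℂ)) {G : Type} [Group G] [Finite G]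
    {β : G → FF M} (hβ : β ∈ Labs M G) : β 1 = 1 := by
  obtain ⟨χ, hχ, rfl⟩ := hβ
  have h1 : omega (MonoidHom.id G) χ 1 = 1 := omega_one Function.injective_id (irr_one_ne hχ)
  show red M (omega (MonoidHom.id G) χ 1) = 1
  rw [h1, red_one]

/-- IND. -/
theorem ind : IndStmt := by
  intro M _ G _ _ c hc
  classical
  have := Fintype.ofFinite G
  have := Fintype.ofFinite (ConjClasses G)
  have hfin : (Labs M G).Finite := by
    have h1 : Labs M G = (fun χ => labF M χ) '' Irr G := by
      ext β
      constructor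
      · rintro ⟨χ, hχ, rfl⟩
        exact ⟨χ, hχ, rfl⟩
      · rintro ⟨χ, hχ, rfl⟩
        exact ⟨χ, hχ, rfl⟩
    rw [h1]
    exact irr_finite'.image _
  obtain ⟨S, hS⟩ : ∃ S : Finset (G → FF M), S = hfin.toFinset := ⟨_, rfl⟩
  have hmem : ∀ β, β ∈ S ↔ β ∈ Labs M G := by
    intro β
    rw [hS, Set.Finite.mem_toFinset]
  have hc' : ∀ g : G, ∑ β ∈ S, c β * β g = 0 := by
    intro g
    rw [hS, ← finsum_mem_eq_finite_toFinset_sum _ hfin]
    exact hc g
  -- words
  have hw : ∀ (w : List G) (g : G), ∑ β ∈ S, c β * ((w.map β).prod * β g) = 0 := by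
    intro w
    induction w with
    | nil =>
      intro g
      simpa using hc' g
    | cons x w ih =>
      intro g
      obtain ⟨n, hn⟩ := lab_mul M x g
      have h1 : ∀ β ∈ S, c β * (((x :: w).map β).prod * β g) =
          ∑ C : ConjClasses G, n C * (c β * ((w.map β).prod * β (Quotient.out C))) := by
        intro β hβ
        have h2 := hn β ((hmem β).1 hβ)
        rw [List.map_cons, List.prod_cons,
          show β x * (w.map β).prod * β g = (w.map β).prod * (β x * β g) by ring, h2,
          Finset.mul_sum, Finset.mul_sum]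
        refine Finset.sum_congr rfl fun C _ => ?_
        ring
      rw [Finset.sum_congr rfl h1, Finset.sum_comm]
      refine Finset.sum_eq_zero fun C _ => ?_
      rw [← Finset.mul_sum, ih, mul_zero]
  have hli : LinearIndependent (FF M) (fun β : G → FF M =>
      (FreeMonoid.lift β : FreeMonoid G → FF M)) :=
    (linearIndependent_monoidHom (FreeMonoid G) (FF M)).comp (fun β : G → FF M =>
      FreeMonoid.lift β) (FreeMonoid.lift (α := G) (M := FF M)).injective
  intro β hβ
  refine linearIndependent_iff'.1 hli S c ?_ β ((hmem β).2 hβ)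
  funext w
  have h2 := hw (FreeMonoid.toList w) 1
  rw [Finset.sum_apply]
  refine Eq.trans (Finset.sum_congr rfl fun β' hβ' => ?_) h2
  rw [lab_one M ((hmem β').1 hβ'), mul_one, Pi.smul_apply, smul_eq_mul, FreeMonoid.lift_apply]

end Pool.Agent.Helper65_CC
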